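import Pool.Agent.Q263.HR.Abs

/-!
# Project HR of helper263, job HR-CORR: one Newton step
-/

set_option autoImplicit false

open Filter Topology

namespace Q263.HR

namespace Sys

variable {X F : Type*} [MetricSpace X] [NormedAddCommGroup F] [NormedSpace ℝ F]

theorem corr (S : Sys X F) : S.Corr := by
  have hK := S.one_le_K
  have hL := S.one_le_L
  have hθ := S.θ_nonneg
  have hKθ := S.Kθ
  have hK0 : 0 < S.K := by linarith
  have hL0 : 0 < S.L := by linarith
  obtain ⟨η, hηd⟩ : ∃ η : ℝ, η = 1 / (64 * (S.K * S.L)) := ⟨_, rfl⟩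
  have hKL : 1 ≤ S.K * S.L := by nlinarith
  have hKL0 : 0 < S.K * S.L := by linarith
  have hη : 0 < η := by rw [hηd]; positivity
  have hηKL : η * (S.K * S.L) = 1 / 64 := by
    rw [hηd]
    field_simp
  have hηK : η * S.K ≤ 1 / 64 := by
    have h1 : S.K ≤ S.K * S.L := by nlinarith
    have := mul_le_mul_of_nonneg_left h1 hη.le
    linarith
  have hη64 : η ≤ 1 / 64 := by
    have := mul_le_mul_of_nonneg_left hKL hη.le
    linarith
  obtain ⟨r1, hr1, H1⟩ := S.H1 η hη
  obtain ⟨r2, hr2, H2⟩ := S.H2 η hη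
  obtain ⟨r4, hr4, H4⟩ := S.H4 η hη
  obtain ⟨r5, hr5, F1⟩ := S.F1 η hη
  obtain ⟨r6, hr6, F2⟩ := S.F2 η hη
  obtain ⟨r, hr, hr1', hr2', hr4', hr5', hr6'⟩ : ∃ r : ℝ, 0 < r ∧ r ≤ r1 ∧ r ≤ r2 ∧ r ≤ r4 ∧
      r ≤ r5 ∧ r ≤ r6 := by
    refine ⟨min r1 (min r2 (min r4 (min r5 r6))), ?_, ?_, ?_, ?_, ?_, ?_⟩
    · simp only [lt_min_iff]
      exact ⟨hr1, hr2, hr4, hr5, hr6⟩
    · exact min_le_left _ _
    · exact (min_le_right _ _).trans (min_le_left _ _)
    · exact (min_le_right _ _).trans ((min_le_right _ _).trans (min_le_left _ _))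
    · exact (min_le_right _ _).trans ((min_le_right _ _).trans ((min_le_right _ _).trans
        (min_le_left _ _)))
    · exact (min_le_right _ _).trans ((min_le_right _ _).trans ((min_le_right _ _).trans
        (min_le_right _ _)))
  obtain ⟨ρ, hρd⟩ : ∃ ρ : ℝ, ρ = r / (100 * (S.K * S.L)) := ⟨_, rfl⟩
  have hρ : 0 < ρ := by rw [hρd]; positivity
  have hρr : 100 * (S.K * S.L) * ρ = r := by
    rw [hρd]
    field_simp
  have hρ100 : 100 * ρ ≤ r := by
    rw [← hρr]
    nlinarith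
  refine ⟨ρ, hρ, ?_⟩
  intro ι σ p ε y τ hpΛ hg hε hερ hpy hτ hres
  have hKLε : S.K * S.L * ε ≤ r / 100 := by
    have := mul_le_mul_of_nonneg_left hερ.le hKL0.le
    linarith
  have hKε : S.K * ε ≤ r / 100 := by
    have h1 : S.K * ε ≤ S.K * S.L * ε := by
      apply mul_le_mul_of_nonneg_right _ hε.le
      nlinarith
    linarith
  have hKε0 : 0 < S.K * ε := by positivity
  have hεK : ε ≤ S.K * ε := by nlinarith
  have hLKε : S.K * ε ≤ S.K * S.L * ε := by
    apply mul_le_mul_of_nonneg_right _ hε.le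
    nlinarith
  have hηKε : η * (S.K * ε) ≤ ε / 64 := by
    have := mul_le_mul_of_nonneg_right hηK hε.le
    linarith
  have hηKLε : η * (S.K * S.L * ε) = ε / 64 := by
    have : η * (S.K * S.L * ε) = η * (S.K * S.L) * ε := by ring
    rw [this, hηKL]
    ring
  have hητ : ∀ i, |τ i| < r := fun i => by
    have := hτ i
    linarith
  -- distances to the points
  have hpw : ∀ i, dist (p (σ i)) (S.Φ (τ i) (S.g (y i))) < 2 * ρ := by
    intro i
    have h1 := dist_triangle_right (p (σ i)) (S.Φ (τ i) (S.g (y i))) (y (σ i))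
    have h2 := hpy (σ i)
    have h3 := hres i
    linarith
  -- the decomposition of the residual
  have step1 : ∀ i, ∃ s ∈ S.Vs (p (σ i)), ∃ u ∈ S.Vu (p (σ i)), ∃ t : ℝ,
      ‖S.e (y (σ i)) - S.e (S.Φ (τ i) (S.g (y i))) - (s + u + t • S.c (p (σ i)))‖ ≤ η * ε ∧
      ‖s‖ ≤ 65 / 64 * (S.K * ε) ∧ ‖u‖ ≤ 65 / 64 * (S.K * ε) ∧ |t| ≤ 65 / 64 * (S.K * ε) := by
    intro i
    obtain ⟨s, hs, u, hu, t, h⟩ := H1 (p (σ i)) (hpΛ _) (S.Φ (τ i) (S.g (y i))) (y (σ i))
      (by have := hpw i; linarith) (by have := hpy (σ i); linarith)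
    have hd := hres i
    have h' : ‖S.e (y (σ i)) - S.e (S.Φ (τ i) (S.g (y i))) - (s + u + t • S.c (p (σ i)))‖ ≤
        η * ε := h.trans (mul_le_mul_of_nonneg_left hd hη.le)
    have h2 : ‖s + u + t • S.c (p (σ i))‖ ≤ 65 / 64 * ε := by
      have e1 : s + u + t • S.c (p (σ i)) = (S.e (y (σ i)) - S.e (S.Φ (τ i) (S.g (y i)))) -
        (S.e (y (σ i)) - S.e (S.Φ (τ i) (S.g (y i))) - (s + u + t • S.c (p (σ i)))) := by abel
      rw [e1]
      refine (norm_sub_le _ _).trans ?_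
      have e2 : ‖S.e (y (σ i)) - S.e (S.Φ (τ i) (S.g (y i)))‖ ≤ ε := by
        rw [← S.isom, dist_comm]
        exact hd
      have e3 : η * ε ≤ 1 / 64 * ε := mul_le_mul_of_nonneg_right hη64 hε.le
      linarith
    obtain ⟨a1, a2, a3⟩ := S.angle (p (σ i)) (hpΛ _) s hs u hu t
    have h3 : S.K * ‖s + u + t • S.c (p (σ i))‖ ≤ 65 / 64 * (S.K * ε) := by
      have := mul_le_mul_of_nonneg_left h2 hK0.le
      linarith
    exact ⟨s, hs, u, hu, t, h', a1.trans h3, a2.trans h3, a3.trans h3⟩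
  choose s hs u hu t h1 h1s h1u h1t using step1
  -- the unstable correction
  have step2 : ∀ i, ∃ b ∈ S.Vu (p i), ‖u i - S.D (p i) b‖ ≤ ε / 60 ∧ ‖b‖ ≤ ε / 15 := by
    intro i
    obtain ⟨u', hu', h2⟩ := H4 (p (σ i)) (hpΛ _) (S.g (p i)) (S.mapΛ _ (hpΛ i))
      (by rw [dist_comm]; have := hg i; linarith) (u i) (hu i)
    obtain ⟨b, hb, hDb⟩ := S.surjU (p i) (hpΛ i) u' hu'
    have hc := S.contrU (p i) (hpΛ i) b hb
    rw [hDb] at hc
    have h3 : η * ‖u i‖ ≤ 65 / 64 * (ε / 64) := by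
      have := mul_le_mul_of_nonneg_left (h1u i) hη.le
      nlinarith
    have h4 : ‖u'‖ ≤ (65 / 64) ^ 2 * (S.K * ε) := by
      have e1 : u' = u i - (u i - u') := by abel
      have e2 : ‖u'‖ ≤ ‖u i‖ + ‖u i - u'‖ := by
        conv_lhs => rw [e1]
        exact norm_sub_le _ _
      have e3 : η * ‖u i‖ ≤ 1 / 64 * ‖u i‖ := mul_le_mul_of_nonneg_right hη64 (norm_nonneg _)
      have e4 := h1u i
      nlinarith
    refine ⟨b, hb, ?_, ?_⟩
    · rw [hDb]
      refine h2.trans (h3.trans ?_)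
      nlinarith
    · refine hc.trans ?_
      have e5 := mul_le_mul_of_nonneg_left h4 hθ
      have e6 : S.θ * ((65 / 64) ^ 2 * (S.K * ε)) = (65 / 64) ^ 2 * (S.K * S.θ) * ε := by ring
      rw [e6] at e5
      have e7 : (65 / 64) ^ 2 * (S.K * S.θ) * ε ≤ (65 / 64) ^ 2 * (1 / 16) * ε := by
        apply mul_le_mul_of_nonneg_right _ hε.le
        apply mul_le_mul_of_nonneg_left hKθ (by norm_num)
      nlinarith
  choose b hb hb1 hb2 using step2
  -- the stable correction
  have hss : ∀ i, s (σ.symm i) ∈ S.Vs (p i) := by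
    intro i
    have := hs (σ.symm i)
    rwa [σ.apply_symm_apply] at this
  have hv : ∀ i, ‖-s (σ.symm i) + b i‖ ≤ 114 / 100 * (S.K * ε) := by
    intro i
    have e1 := norm_add_le (-s (σ.symm i)) (b i)
    rw [norm_neg] at e1
    have e2 := h1s (σ.symm i)
    have e3 := hb2 i
    nlinarith
  have step3 : ∀ i, ∃ y', ‖S.e y' - S.e (y i) - (-s (σ.symm i) + b i)‖ ≤
      η * ‖-s (σ.symm i) + b i‖ ∧
      ‖S.e (S.g y') - S.e (S.g (y i)) - S.D (p i) (-s (σ.symm i) + b i)‖ ≤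
        η * ‖-s (σ.symm i) + b i‖ := by
    intro i
    apply H2 (p i) (hpΛ i) (y i) (by have := hpy i; linarith) _ (neg_mem (hss i)) _ (hb i)
    have := hv i
    linarith
  choose y' h3 h4 using step3
  have hηv : ∀ i, η * ‖-s (σ.symm i) + b i‖ ≤ 114 / 100 * (ε / 64) := by
    intro i
    have := mul_le_mul_of_nonneg_left (hv i) hη.le
    linarith
  have hηv' : ∀ i, η * ‖-s (σ.symm i) + b i‖ ≤ 1 / 64 * ‖-s (σ.symm i) + b i‖ := fun i =>
    mul_le_mul_of_nonneg_right hη64 (norm_nonneg _)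
  -- the image distances
  have hgd : ∀ i, dist (S.g (y i)) (S.g (y' i)) ≤ 116 / 100 * (S.K * S.L * ε) := by
    intro i
    rw [dist_comm, S.isom]
    have e1 : S.e (S.g (y' i)) - S.e (S.g (y i)) =
      (S.e (S.g (y' i)) - S.e (S.g (y i)) - S.D (p i) (-s (σ.symm i) + b i)) +
        S.D (p i) (-s (σ.symm i) + b i) := by abel
    rw [e1]
    refine (norm_add_le _ _).trans ?_
    have e2 := S.boundD (p i) (hpΛ i) _ (neg_mem (hss i)) _ (hb i)
    have e3 := h4 i
    have e4 := hηv' i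
    have e5 := hv i
    have e6 : S.L * ‖-s (σ.symm i) + b i‖ ≤ 114 / 100 * (S.K * S.L * ε) := by
      have := mul_le_mul_of_nonneg_left e5 hL0.le
      linarith
    linarith
  refine ⟨y', fun i => t i + τ i, ?_, ?_, ?_⟩
  · intro i
    rw [dist_comm, S.isom]
    have e1 : S.e (y' i) - S.e (y i) =
      (S.e (y' i) - S.e (y i) - (-s (σ.symm i) + b i)) + (-s (σ.symm i) + b i) := by abel
    rw [e1]
    refine (norm_add_le _ _).trans ?_
    have e2 := h3 i
    have e4 := hηv' i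
    have e5 := hv i
    linarith
  · intro i
    have : t i + τ i - τ i = t i := by ring
    rw [this]
    have := h1t i
    linarith
  · intro i
    -- flow estimates
    have f1 := F1 (τ i) (S.g (y i)) (S.g (y' i)) (by have := hτ i; linarith)
      (by have := hgd i; linarith)
    have f1' : η * dist (S.g (y i)) (S.g (y' i)) ≤ 116 / 100 * (ε / 64) := by
      have := mul_le_mul_of_nonneg_left (hgd i) hη.le
      linarith
    have hww : dist (S.Φ (τ i) (S.g (y i))) (S.Φ (τ i) (S.g (y' i))) ≤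
        120 / 100 * (S.K * S.L * ε) := by
      rw [dist_comm, S.isom]
      have e1 : S.e (S.Φ (τ i) (S.g (y' i))) - S.e (S.Φ (τ i) (S.g (y i))) =
        ((S.e (S.Φ (τ i) (S.g (y' i))) - S.e (S.Φ (τ i) (S.g (y i)))) -
          (S.e (S.g (y' i)) - S.e (S.g (y i)))) + (S.e (S.g (y' i)) - S.e (S.g (y i))) := by abel
      rw [e1]
      refine (norm_add_le _ _).trans ?_
      rw [← S.isom, dist_comm]
      have e2 := hgd i
      have e3 : η * dist (S.g (y i)) (S.g (y' i)) ≤ 1 / 64 * dist (S.g (y i)) (S.g (y' i)) :=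
        mul_le_mul_of_nonneg_right hη64 dist_nonneg
      linarith
    have hxw : dist (p (σ i)) (S.Φ (τ i) (S.g (y' i))) < r := by
      have e1 := dist_triangle (p (σ i)) (S.Φ (τ i) (S.g (y i))) (S.Φ (τ i) (S.g (y' i)))
      have e2 := hpw i
      linarith
    have f2 := F2 (p (σ i)) (S.Φ (τ i) (S.g (y' i))) (t i) (by linarith)
      (by have := h1t i; linarith)
    have f2' : η * |t i| ≤ 65 / 64 * (ε / 64) := by
      have := mul_le_mul_of_nonneg_left (h1t i) hη.le
      linarith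
    have hDs : ‖S.D (p i) (s (σ.symm i))‖ ≤ 65 / 64 * (ε / 16) := by
      have e1 := S.contrS (p i) (hpΛ i) _ (hss i)
      have e2 := mul_le_mul_of_nonneg_left (h1s (σ.symm i)) hθ
      have e3 : S.θ * (65 / 64 * (S.K * ε)) = 65 / 64 * ((S.K * S.θ) * ε) := by ring
      rw [e3] at e2
      have e4 : (S.K * S.θ) * ε ≤ 1 / 16 * ε := mul_le_mul_of_nonneg_right hKθ hε.le
      linarith
    rw [dist_comm, S.isom, S.Φadd]
    have g1 := h1 i
    have g2 := h3 (σ i)
    rw [σ.symm_apply_apply] at g2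
    have g2' := hηv (σ i)
    rw [σ.symm_apply_apply] at g2'
    have g3 := h4 i
    have g3' := hηv i
    have g6 := hb1 i
    have g7 := hb2 (σ i)
    have hηε : η * ε ≤ ε / 64 := by
      have := mul_le_mul_of_nonneg_right hη64 hε.le
      linarith
    have hDadd : S.D (p i) (-s (σ.symm i) + b i) = -S.D (p i) (s (σ.symm i)) + S.D (p i) (b i) := by
      rw [map_add, map_neg]
    rw [hDadd] at g3
    have key : S.e (y' (σ i)) - S.e (S.Φ (t i) (S.Φ (τ i) (S.g (y' i)))) =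
        (S.e (y (σ i)) - S.e (S.Φ (τ i) (S.g (y i))) - (s i + u i + t i • S.c (p (σ i)))) +
        (S.e (y' (σ i)) - S.e (y (σ i)) - (-s i + b (σ i))) -
        (S.e (S.g (y' i)) - S.e (S.g (y i)) - (-S.D (p i) (s (σ.symm i)) + S.D (p i) (b i))) -
        ((S.e (S.Φ (τ i) (S.g (y' i))) - S.e (S.Φ (τ i) (S.g (y i)))) -
          (S.e (S.g (y' i)) - S.e (S.g (y i)))) -
        (S.e (S.Φ (t i) (S.Φ (τ i) (S.g (y' i)))) - S.e (S.Φ (τ i) (S.g (y' i))) -
          t i • S.c (p (σ i))) +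
        (u i - S.D (p i) (b i)) + b (σ i) + S.D (p i) (s (σ.symm i)) := by
      abel
    rw [key]
    refine (norm_add_le _ _).trans ?_
    refine (add_le_add ((norm_add_le _ _).trans (add_le_add ((norm_add_le _ _).trans
      (add_le_add ((norm_sub_le _ _).trans (add_le_add ((norm_sub_le _ _).trans
        (add_le_add ((norm_sub_le _ _).trans (add_le_add ((norm_add_le _ _).trans
          (add_le_add g1 g2)) g3)) f1)) f2)) g6)) g7)) hDs).trans ?_
    linarith

end Sys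

end Q263.HR
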